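import Pool.Agent.Lib.MP_6e4c7d_nt.Exist

/-!
# A lower bound for `Φ_k(d)` which takes the degree `k` of the forms into account
-/

set_option autoImplicit false

namespace Pool.Agent.Results.MP_6e4c7d_nt.DegreeLowerBound

open Pool.Agent.Lib.MP_6e4c7d_nt

/-- **Theorem.** For all `k, d ≥ 1` the number `r = Φ_k(d)` satisfies `r ≥ 3` and
`k d ≤ (r - 2) ((k - 1) r + 1)`, that is `d ≤ (r - 2) (r - (r - 1) / k)`. -/
theorem result : ∀ k d : ℕ, 1 ≤ k → 1 ≤ d →
    3 ≤ Phi k d ∧ k * d ≤ (Phi k d - 2) * ((k - 1) * Phi k d + 1) := by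
  intro k d hk hd
  have h := phi_bound k d hk hd
  set r := Phi k d with hr
  have hk1 : (1 : ℤ) ≤ k := by exact_mod_cast hk
  have hd1 : (1 : ℤ) ≤ d := by exact_mod_cast hd
  have hr0 : (0 : ℤ) ≤ r := Int.natCast_nonneg r
  have hnn : (0 : ℤ) ≤ ((k : ℤ) - 1) * r := mul_nonneg (by linarith) hr0
  have h3 : 3 ≤ r := by
    by_contra hcon
    have hr2 : (r : ℤ) ≤ 2 := by
      have : r ≤ 2 := by omega
      exact_mod_cast this
    have h1 : ((r : ℤ) - 2) * (((k : ℤ) - 1) * r + 1) ≤ 0 :=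
      mul_nonpos_of_nonpos_of_nonneg (by linarith) (by linarith)
    nlinarith
  refine ⟨h3, ?_⟩
  have h2 : ((k * d : ℕ) : ℤ) ≤ (((r - 2) * ((k - 1) * r + 1) : ℕ) : ℤ) := by
    push_cast [Nat.cast_sub (by omega : 2 ≤ r), Nat.cast_sub hk]
    exact h
  exact_mod_cast h2

end Pool.Agent.Results.MP_6e4c7d_nt.DegreeLowerBound
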