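import Pool.Agent.Lib.MP_6e4c7d_nt.FortyFour

/-!
# Sixteen binary quadratic forms with dependent forty-fourth powers
-/

set_option autoImplicit false

namespace Pool.Agent.Results.MP_6e4c7d_nt.FortyFourthPowers

open Pool.Agent.Lib.MP_6e4c7d_nt

/-- `m_k(d)`: the least of the numbers `i + d / i`, `1 ≤ i ≤ k`. -/
noncomputable def mkd (k d : ℕ) : ℝ :=
  sInf {t : ℝ | ∃ i : ℕ, 1 ≤ i ∧ i ≤ k ∧ t = (i : ℝ) + (d : ℝ) / (i : ℝ)}

/-- **Theorem.** For every `k ≥ 2` there are sixteen pairwise non-proportional binary forms of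
degree `k` with dependent `44`-th powers; so `Φ_2(44) ≤ m_2(44) - 8`. -/
theorem result : (∀ k : ℕ, 2 ≤ k → ∃ f : Fin 16 → MvPolynomial (Fin 2) ℂ, IsWSet k 16 44 f) ∧
    (Phi 2 44 : ℝ) ≤ mkd 2 44 - 8 := by
  have h1 : Phi 2 44 ≤ 16 := Nat.sInf_le (exists_wset_44_of_le 2 le_rfl)
  have hm : mkd 2 44 = 24 := by
    unfold mkd
    have hset : {t : ℝ | ∃ i : ℕ, 1 ≤ i ∧ i ≤ 2 ∧ t = (i : ℝ) + ((44 : ℕ) : ℝ) / (i : ℝ)} =
        {24, 45} := by
      ext t
      simp only [Set.mem_ofPred_eq, Set.mem_insert_iff, Set.mem_singleton_iff]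
      constructor
      · rintro ⟨i, hi1, hi2, rfl⟩
        interval_cases i
        · right
          norm_num
        · left
          norm_num
      · rintro (rfl | rfl)
        · exact ⟨2, by norm_num, le_rfl, by norm_num⟩
        · exact ⟨1, le_rfl, by norm_num, by norm_num⟩
    rw [hset, csInf_pair]
    norm_num
  refine ⟨exists_wset_44_of_le, ?_⟩
  have h3 : (Phi 2 44 : ℝ) ≤ 16 := by exact_mod_cast h1
  rw [hm]
  linarith

end Pool.Agent.Results.MP_6e4c7d_nt.FortyFourthPowers
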