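import Pool.Agent.Lib.MP_6e4c7d_nt.Exist

/-!
# The least number of binary forms of degree `k` with dependent fourteenth powers, `2 ≤ k ≤ 11`
-/

set_option autoImplicit false

namespace Pool.Agent.Results.MP_6e4c7d_nt.FourteenthPowers

open Pool.Agent.Lib.MP_6e4c7d_nt

/-- **Theorem.** `Φ_k(14) = 6` for every `k` with `2 ≤ k ≤ 11`. -/
theorem result : ∀ k : ℕ, 2 ≤ k → k ≤ 11 → Phi k 14 = 6 := by
  intro k hk2 hk11
  have hle : Phi k 14 ≤ 6 := Nat.sInf_le (exists_wset_ico_of_le k hk2)
  have h := phi_bound k 14 (by omega) (by norm_num)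
  refine le_antisymm hle ?_
  by_contra hcon
  push Not at hcon
  have hk2' : (2 : ℤ) ≤ k := by exact_mod_cast hk2
  have hk11' : (k : ℤ) ≤ 11 := by exact_mod_cast hk11
  set r := Phi k 14 with hr
  interval_cases r <;> push_cast at h <;> nlinarith

end Pool.Agent.Results.MP_6e4c7d_nt.FourteenthPowers
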